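import Pool.Agent.Y83.NP.Chain

/-! The leading exponents of one component of a bad pair. -/

set_option autoImplicit false

open MvPolynomial Pool.Agent.H938R2.JC Pool.Agent.W443.J5 Pool.Agent.W443.J6

namespace Pool.Agent.Y83.NP

universe u

theorem split_gcd {B B' : ℕ} (hB : 0 < B) (hB' : 0 < B') :
    ∃ a b m : ℕ, 1 ≤ a ∧ 1 ≤ b ∧ 1 ≤ m ∧ Nat.Coprime a b ∧ B = a * m ∧ B' = b * m := by
  obtain ⟨m, a, b, hm, hcop, e1, e2⟩ := Nat.exists_coprime' (m := B) (n := B')
    (Nat.gcd_pos_of_pos_left _ hB)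
  refine ⟨a, b, m, ?_, ?_, hm, hcop, e1, e2⟩
  · rcases Nat.eq_zero_or_pos a with h | h
    · rw [h, zero_mul] at e1; omega
    · exact h
  · rcases Nat.eq_zero_or_pos b with h | h
    · rw [h, zero_mul] at e2; omega
    · exact h

theorem min_mul {a p q : ℕ} : min (a * p) (a * q) = a * min p q := by
  rcases le_total p q with h | h
  · rw [min_eq_left h, min_eq_left (Nat.mul_le_mul_left a h)]
  · rw [min_eq_right h, min_eq_right (Nat.mul_le_mul_left a h)]

theorem max_mul {a p q : ℕ} : max (a * p) (a * q) = a * max p q := by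
  rcases le_total p q with h | h
  · rw [max_eq_right h, max_eq_right (Nat.mul_le_mul_left a h)]
  · rw [max_eq_left h, max_eq_left (Nat.mul_le_mul_left a h)]

/-- The lexicographic leading exponents `(B, C)` of one component of a bad pair. -/
theorem lead (k : Type u) [Field k] [IsAlgClosed k] [CharZero k] : ∀ (n : ℕ)
    (f g : MvPolynomial (Fin 2) k) (B C : ℕ), degreeOf 0 f + degreeOf 0 g ≤ n → Bad f g →
    Upp 1 0 B C f → 1 ≤ min B C → ¬ min B C ∣ max B C →
    ∃ d, 2 ≤ d ∧ d ∣ B ∧ d ∣ C ∧ B ∣ d * degreeOf 0 g ∧ 3 * d ≤ min B C ∧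
      max B C ≤ min B C * (1 + 2 ^ (min B C / d - 3)) := by
  intro n
  induction n with
  | zero =>
    intro f g B C h hB _ _ _
    have := Pool.Agent.W216.J6.Bad.two hB
    omega
  | succ n ih =>
    intro f g B C hn hbad hU h1 hdvd
    have hf2 := Pool.Agent.W216.J6.Bad.two hbad
    have hg2 := Pool.Agent.W216.J6.Bad.two (Pool.Agent.W216.J6.Bad.symm hbad)
    have hdf := degreeOf_of_upp hU
    by_cases c1 : degreeOf 0 f ∣ degreeOf 0 g
    · obtain ⟨g', hg', hlt⟩ := Pool.Agent.W216.J6.reduce Pool.Agent.W215.J5.p1 hbad c1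
      obtain ⟨d, e1, e2, e3, -, e5, e6⟩ := ih f g' B C (by omega) hg' hU h1 hdvd
      exact ⟨d, e1, e2, e3, hdf ▸ c1.mul_left d, e5, e6⟩
    obtain ⟨a, b, m, ha1, hb1, hm1, hcop, ea, eb⟩ := split_gcd (B := degreeOf 0 f)
      (B' := degreeOf 0 g) (by omega) (by omega)
    have ha2 : 2 ≤ a := by
      rcases Nat.lt_or_ge a 2 with h | h
      · exfalso
        apply c1
        have : a = 1 := by omega
        rw [ea, eb, this, one_mul]
        exact dvd_mul_left _ _
      · exact h
    have ht1 : Top 1 0 (a * m) f := by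
      apply Pool.Agent.W216.J6.top_deg (Pool.Agent.W216.J6.Bad.ne hbad)
      rw [ea]; push_cast; ring
    have ht2 : Top 1 0 (b * m) g := by
      apply Pool.Agent.W216.J6.top_deg (Pool.Agent.W216.J6.Bad.ne
        (Pool.Agent.W216.J6.Bad.symm hbad))
      rw [eb]; push_cast; ring
    obtain ⟨hs, hs'⟩ := Asm.sim k f g hbad a b ha1 hb1 hcop 1 0 _ (Or.inl one_pos) ht1 ht2
    obtain ⟨p, q, hp, hq, hUg⟩ := hs.2.2 1 0 one_pos B C hU
    have hdg := degreeOf_of_upp hUg
    subst hp hq
    rw [min_mul] at h1 hdvd ⊢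
    rw [max_mul] at hdvd ⊢
    have hpq1 : 1 ≤ min p q := by
      rcases Nat.eq_zero_or_pos (min p q) with h | h
      · rw [h, mul_zero] at h1; omega
      · exact h
    have hdvd' : ¬ min p q ∣ max p q := fun h => hdvd (Nat.mul_dvd_mul_left a h)
    by_cases c2 : degreeOf 0 g ∣ degreeOf 0 f
    · -- `b = 1`
      obtain ⟨f', hf', hlt⟩ := Pool.Agent.W216.J6.reduce Pool.Agent.W215.J5.p1
        (Pool.Agent.W216.J6.Bad.symm hbad) c2
      have hb : b = 1 := by
        rw [ea, eb] at c2
        have h3 : b ∣ a := Nat.dvd_of_mul_dvd_mul_right (by omega) c2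
        have h4 : b ∣ Nat.gcd a b := Nat.dvd_gcd h3 dvd_rfl
        rw [hcop] at h4
        exact Nat.dvd_one.1 h4
      subst hb
      rw [one_mul, one_mul] at hUg
      rw [one_mul] at hdg
      obtain ⟨d, e1, e2, e3, -, e5, e6⟩ := ih g f' p q (by omega) hf' hUg hpq1 hdvd'
      refine ⟨a * d, by nlinarith, Nat.mul_dvd_mul_left a e2, Nat.mul_dvd_mul_left a e3, ?_, ?_, ?_⟩
      · rw [hdg, mul_assoc]
        exact Nat.mul_dvd_mul_left a (dvd_mul_left _ _)
      · calc 3 * (a * d) = a * (3 * d) := by ring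
          _ ≤ a * min p q := Nat.mul_le_mul_left a e5
      · rw [Nat.mul_div_mul_left _ _ (by omega : 0 < a), mul_assoc]
        exact Nat.mul_le_mul_left a e6
    · have hb2 : 2 ≤ b := by
        rcases Nat.lt_or_ge b 2 with h | h
        · exfalso
          apply c2
          have : b = 1 := by omega
          rw [ea, eb, this, one_mul]
          exact dvd_mul_left _ _
        · exact h
      have key : 3 ≤ min p q ∧ max p q ≤ min p q * (1 + 2 ^ (min p q - 3)) := by
        rcases lt_trichotomy p q with h | h | h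
        · rw [min_eq_left h.le, max_eq_right h.le] at hdvd' ⊢
          rw [min_eq_left h.le] at hpq1
          obtain ⟨k1, k2⟩ := upp_bound k f g a b p q ha2 hb2 hcop hpq1 h hbad hs hs' hU
          exact ⟨k1, k2.resolve_left hdvd'⟩
        · exfalso
          apply hdvd'
          rw [h, min_self, max_self]
        · rw [min_eq_right h.le, max_eq_left h.le] at hdvd' ⊢
          rw [min_eq_right h.le] at hpq1
          obtain ⟨k1, k2⟩ := upp_bound' k f g a b p q ha2 hb2 hcop hpq1 h hbad hs hs' hU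
          exact ⟨k1, k2.resolve_left hdvd'⟩
      refine ⟨a, ha2, dvd_mul_right _ _, dvd_mul_right _ _, ?_, ?_, ?_⟩
      · rw [hdg]
        exact Nat.mul_dvd_mul_left a (dvd_mul_left _ _)
      · rw [mul_comm 3 a]
        exact Nat.mul_le_mul_left a key.1
      · rw [Nat.mul_div_cancel_left _ (by omega : 0 < a), mul_assoc]
        exact Nat.mul_le_mul_left a key.2

/-- The general case. -/
theorem lead' (k : Type u) [Field k] [CharZero k] (f g : MvPolynomial (Fin 2) k) (c : k)
    (hc : c ≠ 0) (hJ : J f g = C c) (B C' B' D' : ℕ) (hU : Upp 1 0 B C' f) (hU' : Upp 1 0 B' D' g)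
    (h1 : 1 ≤ min B C') (hdvd : ¬ min B C' ∣ max B C')
    (hd : ∀ d, 2 ≤ d → d ∣ B → d ∣ C' → B ∣ d * B' →
      min B C' < 3 * d ∨ min B C' * (1 + 2 ^ (min B C' / d - 3)) < max B C') : Good f g := by
  apply Pool.Agent.H928R2.Three.good_descent
  have e1 : ∀ P : MvPolynomial (Fin 2) k, Pool.Agent.H922R2.mE k (AlgebraicClosure k) (Fin 2) P =
      MvPolynomial.map (algebraMap k (AlgebraicClosure k)) P := by
    intro P
    rfl
  have hup : ∀ (P : MvPolynomial (Fin 2) k) (B C : ℕ), Upp 1 0 B C P →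
      Upp 1 0 B C (MvPolynomial.map (algebraMap k (AlgebraicClosure k)) P) := by
    intro P B C h
    refine ⟨?_, fun m hm => ?_⟩
    · rw [coeff_map]; exact (map_ne_zero _).2 h.1
    · rw [coeff_map] at hm
      exact h.2 m ((map_ne_zero _).1 hm)
  rw [e1, e1]
  by_contra hG
  obtain ⟨d, k1, k2, k3, k4, k5, k6⟩ := lead (AlgebraicClosure k) _ _ _ B C' le_rfl
    ⟨⟨algebraMap k (AlgebraicClosure k) c, (map_ne_zero _).2 hc, by
      have : J (MvPolynomial.map (algebraMap k (AlgebraicClosure k)) f)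
          (MvPolynomial.map (algebraMap k (AlgebraicClosure k)) g) =
          MvPolynomial.map (algebraMap k (AlgebraicClosure k)) (J f g) := by
        unfold J
        simp only [map_sub, map_mul, pderiv_map]
      rw [this, hJ, map_C]⟩, hG⟩ (hup f B C' hU) h1 hdvd
  rw [degreeOf_of_upp (hup g B' D' hU')] at k4
  rcases hd d k1 k2 k3 k4 with h | h <;> omega

end Pool.Agent.Y83.NP
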