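import Pool.Agent.W443.J6.T4

/-! Chains of corners: a bound for the slope. -/

set_option autoImplicit false

open MvPolynomial Pool.Agent.H938R2.JC Pool.Agent.W443.J5 Pool.Agent.W443.J6

namespace Pool.Agent.Y83.NP

universe u

/-- the last edge -/
theorem arith_fin {p q p' q' ρ σ l h : ℤ} (h1 : 1 ≤ σ) (h2 : σ < ρ) (h4 : 1 ≤ l) (h5 : 1 ≤ h)
    (h6 : 1 ≤ p') (hq' : 0 ≤ q') (h7 : p = p' + l * σ) (h8 : q = q' + l * ρ) (h9 : q' < p')
    (h10 : h * (ρ * p - σ * q) = q - p) : 3 ≤ p ∧ q ≤ p * (p - 1) := by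
  have e1 : (l - h * p') * (ρ - σ) = (1 + h * σ) * (p' - q') := by
    rw [h7, h8] at h10
    linear_combination -h10
  have hr : 1 ≤ ρ - σ := by linarith
  have hpos : 0 < (1 + h * σ) * (p' - q') := mul_pos (by nlinarith) (by linarith)
  have ht : 1 ≤ l - h * p' := by
    by_contra hcon
    push Not at hcon
    have : (l - h * p') * (ρ - σ) ≤ 0 :=
      mul_nonpos_of_nonpos_of_nonneg (by linarith) (by linarith)
    linarith
  have hρ : ρ - σ ≤ (1 + h * σ) * (p' - q') := by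
    rw [← e1]
    nlinarith
  have hhp : 1 ≤ h * p' := by nlinarith
  have hl2 : 2 ≤ l := by linarith
  have hlσ : l ≤ l * σ := by nlinarith
  have hp3 : 3 ≤ p := by
    rw [h7]; linarith
  have hq : q ≤ l * p := by
    have s1 : l * ρ ≤ l * σ + l * ((1 + h * σ) * (p' - q')) := by
      have := mul_le_mul_of_nonneg_left hρ (by linarith : (0 : ℤ) ≤ l)
      linarith
    have s2 : l * (h * p' + 1) * σ ≤ l * l * σ := by
      have : l * (h * p' + 1) ≤ l * l := mul_le_mul_of_nonneg_left (by linarith) (by linarith)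
      exact mul_le_mul_of_nonneg_right this (by linarith)
    have s3 : q' ≤ l * (1 + h * σ) * q' := by
      have : 1 ≤ l * (1 + h * σ) := by
        have h3 : 0 ≤ h * σ := by positivity
        nlinarith
      nlinarith
    rw [h7, h8]
    nlinarith
  refine ⟨hp3, hq.trans ?_⟩
  have : l ≤ p - 1 := by linarith
  nlinarith

/-- an edge that is not the last one -/
theorem arith_mid {p q p' q' ρ σ l h E : ℤ} (h1 : 1 ≤ σ) (h2 : σ < ρ) (h4 : 1 ≤ l) (h5 : 1 ≤ h)
    (h6 : 1 ≤ p') (h7 : p = p' + l * σ) (h8 : q = q' + l * ρ) (h9 : p' < q')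
    (h10 : h * (ρ * p - σ * q) = q - p) (hE : q' - p' ≤ p' * E) :
    q - p ≤ E * (p * (1 + (p - p'))) := by
  have e1 : (h * p' - l) * (ρ - σ) = (1 + h * σ) * (q' - p') := by
    rw [h7, h8] at h10
    linear_combination h10
  have hr : 1 ≤ ρ - σ := by linarith
  have hpos : 0 < (1 + h * σ) * (q' - p') := mul_pos (by nlinarith) (by linarith)
  have hs : 1 ≤ h * p' - l := by
    by_contra hcon
    push Not at hcon
    have : (h * p' - l) * (ρ - σ) ≤ 0 :=
      mul_nonpos_of_nonpos_of_nonneg (by linarith) (by linarith)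
    linarith
  obtain ⟨s, hs'⟩ : ∃ s, s = h * p' - l := ⟨_, rfl⟩
  obtain ⟨r, hr'⟩ : ∃ r, r = ρ - σ := ⟨_, rfl⟩
  obtain ⟨D, hD'⟩ : ∃ D, D = q' - p' := ⟨_, rfl⟩
  rw [← hs', ← hr', ← hD'] at e1
  rw [← hs'] at hs
  rw [← hr'] at hr
  rw [← hD'] at hE
  have hD : 1 ≤ D := by rw [hD']; linarith
  have hp0 : 0 < p := by rw [h7]; nlinarith
  -- `p' * (l * r) ≤ D * ((p - p') * (p + 1))`
  have e2 : p' * (l * r) * s = l * D * (p + s * σ) := by
    have : h * p' = l + s := by rw [hs']; ring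
    calc p' * (l * r) * s = l * p' * (s * r) := by ring
      _ = l * p' * ((1 + h * σ) * D) := by rw [e1]
      _ = l * D * (p' + (h * p') * σ) := by ring
      _ = l * D * (p' + (l + s) * σ) := by rw [this]
      _ = l * D * (p + s * σ) := by rw [h7]; ring
  have e3 : l * D * (p + s * σ) ≤ l * D * (p + σ) * s := by
    have h11 : p + s * σ ≤ (p + σ) * s := by nlinarith
    have h12 : 0 ≤ l * D := by positivity
    calc l * D * (p + s * σ) ≤ l * D * ((p + σ) * s) := mul_le_mul_of_nonneg_left h11 h12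
      _ = l * D * (p + σ) * s := by ring
  have e4 : p' * (l * r) ≤ l * D * (p + σ) :=
    le_of_mul_le_mul_right (by rw [e2]; exact e3) (by linarith : (0 : ℤ) < s)
  have e5 : l * (p + σ) ≤ (p - p') * (p + 1) := by
    have h13 : l ≤ l * σ := by nlinarith
    have h14 : l * p ≤ l * σ * p := mul_le_mul_of_nonneg_right h13 hp0.le
    have h15 : p - p' = l * σ := by rw [h7]; ring
    rw [h15]
    nlinarith
  have e6 : p' * (l * r) ≤ D * ((p - p') * (p + 1)) := by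
    calc p' * (l * r) ≤ l * D * (p + σ) := e4
      _ = D * (l * (p + σ)) := by ring
      _ ≤ D * ((p - p') * (p + 1)) := mul_le_mul_of_nonneg_left e5 (by linarith)
  have e7 : q - p = D + l * r := by rw [h7, h8, hD', hr']; ring
  have e8 : p' * (q - p) ≤ p' * (E * (p * (1 + (p - p')))) := by
    calc p' * (q - p) = p' * D + p' * (l * r) := by rw [e7]; ring
      _ ≤ p' * D + D * ((p - p') * (p + 1)) := by linarith
      _ = D * (p * (1 + (p - p'))) := by ring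
      _ ≤ p' * E * (p * (1 + (p - p'))) := by
        refine mul_le_mul_of_nonneg_right hE ?_
        have : 0 ≤ p - p' := by rw [h7]; nlinarith
        positivity
      _ = p' * (E * (p * (1 + (p - p')))) := by ring
  exact le_of_mul_le_mul_left e8 (by linarith)

theorem two_pow_ge (d : ℕ) : 1 + d ≤ 2 ^ d := by
  have := Nat.lt_two_pow_self (n := d)
  omega

theorem pow_bound {p : ℕ} (hp : 3 ≤ p) : p - 2 ≤ 2 ^ (p - 3) := by
  have := two_pow_ge (p - 3)
  omega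

/-- No steep corner: a lowest corner `(a p, a q)`, `p < q`, on an edge of a bad pair has
`q ≤ p (1 + 2 ^ (p - 3))`. -/
theorem chain (k : Type u) [Field k] [IsAlgClosed k] [CharZero k] (f g : MvPolynomial (Fin 2) k)
    (a b : ℕ) (ha : 2 ≤ a) (hb : 2 ≤ b) (hab : Nat.Coprime a b) (hbad : Bad f g)
    (hs : Sim a b f g) : ∀ p q ρ0 σ0 : ℕ, 1 ≤ ρ0 → σ0 < ρ0 → p < q →
    Low (ρ0 : ℤ) (-(σ0 : ℤ)) (a * p) (a * q) f → 3 ≤ p ∧ q ≤ p * (1 + 2 ^ (p - 3)) := by
  intro p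
  induction p using Nat.strong_induction_on with
  | _ p ih =>
  intro q ρ0 σ0 hρ0 hσ0 hpq hL
  obtain ⟨ρ, σ, p', q', l, h, h1, h2, h3, h4, h5, h6, h7, h8, h9, h10, h11, h12⟩ :=
    Asm.ed k f g a b p q ρ0 σ0 ha hb hab hbad hs hρ0 hσ0 hpq hL
  have z1 : (1 : ℤ) ≤ σ := by exact_mod_cast h1
  have z2 : (σ : ℤ) < ρ := by exact_mod_cast h2
  have z4 : (1 : ℤ) ≤ l := by exact_mod_cast h4
  have z5 : (1 : ℤ) ≤ h := by exact_mod_cast h5
  have z6 : (1 : ℤ) ≤ p' := by exact_mod_cast h6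
  have z7 : (p : ℤ) = p' + l * σ := by exact_mod_cast h7
  have z8 : (q : ℤ) = q' + l * ρ := by exact_mod_cast h8
  rcases lt_or_gt_of_ne h9 with h13 | h13
  · -- the corner is still above the diagonal
    have hlt : p' < p := by
      rw [h7]
      have : 1 * 1 ≤ l * σ := Nat.mul_le_mul h4 h1
      omega
    obtain ⟨i1, i2⟩ := ih p' hlt q' ρ σ (by omega) h2 h13 h11
    have z13 : (p' : ℤ) < q' := by exact_mod_cast h13
    have zE : (q' : ℤ) - p' ≤ p' * (2 ^ (p' - 3) : ℕ) := by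
      have : (q' : ℤ) ≤ p' * (1 + 2 ^ (p' - 3) : ℕ) := by exact_mod_cast i2
      push_cast at this ⊢
      linarith
    have key := arith_mid z1 z2 z4 z5 z6 z7 z8 z13 h10 zE
    refine ⟨by omega, ?_⟩
    have e1 : (2 ^ (p' - 3) * (p * (1 + (p - p'))) : ℕ) ≤ p * 2 ^ (p - 3) := by
      have e2 : p - 3 = (p' - 3) + (p - p') := by omega
      rw [e2, pow_add]
      calc 2 ^ (p' - 3) * (p * (1 + (p - p'))) = p * (2 ^ (p' - 3) * (1 + (p - p'))) := by ring
        _ ≤ p * (2 ^ (p' - 3) * 2 ^ (p - p')) :=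
          Nat.mul_le_mul_left _ (Nat.mul_le_mul_left _ (two_pow_ge _))
    have e3 : ((2 ^ (p' - 3) * (p * (1 + (p - p'))) : ℕ) : ℤ) ≤ ((p * 2 ^ (p - 3) : ℕ) : ℤ) := by
      exact_mod_cast e1
    rw [Nat.cast_mul, Nat.cast_mul, Nat.cast_add, Nat.cast_sub hlt.le] at e3
    have e4 : (q : ℤ) ≤ ((p * (1 + 2 ^ (p - 3)) : ℕ) : ℤ) := by
      push_cast at e3 key ⊢
      linarith
    exact_mod_cast e4
  · -- the last edge
    have z13 : (q' : ℤ) < p' := by exact_mod_cast h13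
    obtain ⟨k1, k2⟩ := arith_fin z1 z2 z4 z5 z6 (Int.natCast_nonneg q') z7 z8 z13 h10
    have k3 : 3 ≤ p := by exact_mod_cast k1
    refine ⟨k3, ?_⟩
    have k4 : q ≤ p * (p - 1) := by
      zify
      rw [Nat.cast_sub (by omega)]
      push_cast
      exact k2
    refine k4.trans (Nat.mul_le_mul_left _ ?_)
    have := pow_bound k3
    omega

/-- the corner `(a p, a q)`, `p < q`, at the top of the vertical edge -/
theorem upp_bound (k : Type u) [Field k] [IsAlgClosed k] [CharZero k]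
    (f g : MvPolynomial (Fin 2) k) (a b p q : ℕ) (ha : 2 ≤ a) (hb : 2 ≤ b)
    (hab : Nat.Coprime a b) (hp : 1 ≤ p) (hpq : p < q) (hbad : Bad f g) (hs : Sim a b f g)
    (hs' : Sim b a g f) (hupp : Upp 1 0 (a * p) (a * q) f) :
    3 ≤ p ∧ (p ∣ q ∨ q ≤ p * (1 + 2 ^ (p - 3))) := by
  obtain ⟨f', g', v, h1, h2, h3, h4, h5, h6⟩ := Pool.Agent.W688.J6.st2 Asm.sim Asm.dh_
    Pool.Agent.W74.J6.t_E1P k f g a b p q ha hb hab hp hpq hbad hs hs' hupp
  have h7 : Low ((1 : ℕ) : ℤ) (-((0 : ℕ) : ℤ)) (a * p) (a * v) f' := by simpa using h6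
  obtain ⟨h8, h9⟩ := chain k f' g' a b ha hb hab h3 h4 p v 1 0 le_rfl one_pos h1 h7
  refine ⟨h8, ?_⟩
  rcases h2 with h2 | h2
  · exact Or.inl h2
  · right; rw [← h2]; exact h9

/-- the corner `(a p, a q)`, `p > q ≥ 1`, at the top of the vertical edge -/
theorem upp_bound' (k : Type u) [Field k] [IsAlgClosed k] [CharZero k]
    (f g : MvPolynomial (Fin 2) k) (a b p q : ℕ) (ha : 2 ≤ a) (hb : 2 ≤ b)
    (hab : Nat.Coprime a b) (hq : 1 ≤ q) (hpq : q < p) (hbad : Bad f g) (hs : Sim a b f g)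
    (hs' : Sim b a g f) (hupp : Upp 1 0 (a * p) (a * q) f) :
    3 ≤ q ∧ (q ∣ p ∨ p ≤ q * (1 + 2 ^ (q - 3))) := by
  obtain ⟨f1, g1, h1, h2, h3, h4, h5⟩ := Pool.Agent.W688.J6.st3 Asm.sim Asm.dh_
    Pool.Agent.W319.J6.t_E1 k f g a b p q ha hb hab (by omega) hpq hbad hs hs' hupp
  obtain ⟨f2, g2, h6, h7, h8, h9⟩ := Pool.Agent.W577.J6.psc Asm.sim Asm.dh_
    Pool.Agent.W67.J6.cl1 Pool.Agent.W67.J6.cl2 Pool.Agent.W605.J6.cl3 Pool.Agent.W605.J6.cl4
    (Pool.Agent.W410.J6.PSA.main Asm.sim) k f1 g1 a b p q ha hb hab hq hpq h1 h2 h3 h4 h5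
  exact upp_bound k f2 g2 a b q p ha hb hab hq hpq h6 h7 h8 h9

end Pool.Agent.Y83.NP
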