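import Pool.Agent.Y83.NP.Chain
import Pool.Agent.TH207.Tz3
import Pool.Agent.TH207.Tot
import Pool.Agent.H922R2.K13

/-! Corners of the components of automorphisms; pairs with the corner of a trapezoid. -/

set_option autoImplicit false

open MvPolynomial Pool.Agent.H938R2.JC Pool.Agent.W443.J5 Pool.Agent.W443.J6

namespace Pool.Agent.Y83.NP

universe u

/-- a pair of generators comes from an automorphism -/
theorem exists_aut {k : Type u} [Field k] [CharZero k] {f g : MvPolynomial (Fin 2) k} {c : k}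
    (hc : c ≠ 0) (hJ : J f g = C c) (hg : Good f g) :
    ∃ φ : Pool.Agent.H922R2.GA k, φ (X 0) = f := by
  have hJF : IsUnit (Matrix.det (Pool.Agent.H922R2.jac ![f, g])) := by
    rw [Matrix.det_fin_two]
    have : (Pool.Agent.H922R2.jac ![f, g]) 0 0 * (Pool.Agent.H922R2.jac ![f, g]) 1 1 -
        (Pool.Agent.H922R2.jac ![f, g]) 0 1 * (Pool.Agent.H922R2.jac ![f, g]) 1 0 = C c := by
      rw [← hJ]
      simp only [Pool.Agent.H922R2.jac, Matrix.of_apply, J, Matrix.cons_val_zero,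
        Matrix.cons_val_one]
      try ring
    rw [this]
    exact (isUnit_iff_ne_zero.2 hc).map C
  have hr : Set.range ![f, g] = {f, g} := by
    ext x
    simp only [Set.mem_range, Fin.exists_fin_two, Set.mem_insert_iff, Set.mem_singleton_iff,
      Matrix.cons_val_zero, Matrix.cons_val_one]
    rw [eq_comm (a := f), eq_comm (a := g)]
  have htop : Algebra.adjoin k (Set.range ![f, g]) = ⊤ := by rw [hr]; exact hg
  obtain ⟨G, hG1, hG2⟩ := Pool.Agent.H922R2.inverse_of_top ![f, g] hJF (by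
    first
      | exact htop
      | (rw [Algebra.adjoin_range_eq_range_aeval] at htop; exact htop))
  refine ⟨AlgEquiv.ofAlgHom (aeval ![f, g]) (aeval G) ?_ ?_, ?_⟩
  · apply MvPolynomial.algHom_ext
    intro i
    rw [AlgHom.comp_apply, aeval_X, hG1, AlgHom.id_apply]
  · apply MvPolynomial.algHom_ext
    intro i
    rw [AlgHom.comp_apply, aeval_X, hG2, AlgHom.id_apply]
  · rw [AlgEquiv.ofAlgHom_apply, aeval_X]; rfl

/-- a component of an automorphism has no interior corner -/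
theorem no_corner {k : Type u} [Field k] [CharZero k] [IsAlgClosed k]
    {f g : MvPolynomial (Fin 2) k} {c : k} (hc : c ≠ 0) (hJ : J f g = C c) (hg : Good f g)
    {B C' : ℕ} (hB : 0 < B) (hC : 0 < C') (hU : Upp 1 0 B C' f) : False := by
  obtain ⟨φ, hφ⟩ := exists_aut hc hJ hg
  have hLN := Pool.Agent.H922R2.LN_ga φ
  rw [hφ] at hLN
  have h0 : degreeOf 0 f = B := degreeOf_of_upp hU
  have h1 : C' ≤ degreeOf 1 f := by
    have := monomial_le_degreeOf 1 (mem_support_iff.2 hU.1)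
    simpa using this
  set n := degreeOf 1 f with hn
  have hgpos : 0 < Nat.gcd B n := Nat.gcd_pos_of_pos_left _ hB
  obtain ⟨m', hm'⟩ : Nat.gcd B n ∣ B := Nat.gcd_dvd_left B n
  obtain ⟨n', hn'⟩ : Nat.gcd B n ∣ n := Nat.gcd_dvd_right B n
  have hm'pos : 0 < m' := Nat.pos_of_ne_zero (by rintro rfl; omega)
  have hn'pos : 0 < n' := Nat.pos_of_ne_zero (by rintro rfl; omega)
  have hco : Nat.Coprime m' n' := by
    have h := Nat.coprime_div_gcd_div_gcd (m := B) (n := n) hgpos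
    rwa [Nat.div_eq_of_eq_mul_right hgpos hm', Nat.div_eq_of_eq_mul_right hgpos hn'] at h
  obtain ⟨-, h2, -⟩ := Pool.Agent.H922R2.lead_struct f hLN (Nat.gcd B n) m' n' hgpos hm'pos hn'pos
    hco (h0.trans hm') (hn.symm.trans hn')
  have h3 := Pool.Agent.H922R2.wt_le_natDegree ![n', m'] hU.1
  rw [h2, ← hm'] at h3
  have h4 : Pool.Agent.H922R2.wt ![n', m'] (e B C') = n' * B + m' * C' := by
    simp [Pool.Agent.H922R2.wt]
  rw [h4] at h3
  have h5 : 0 < m' * C' := Nat.mul_pos hm'pos hC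
  omega

section
variable {k : Type u} [Field k] [CharZero k] [IsAlgClosed k]

/-- the data of a pair with the corners of the trapezoids -/
theorem data {a b p q : ℕ} (ha : 2 ≤ a) (hb : 2 ≤ b) (hcop : Nat.Coprime a b)
    (hp : 0 < p) (hq : 0 < q) {F G : MvPolynomial (Fin 2) k} {c : k} (hc : c ≠ 0)
    (hJ : pderiv 0 F * pderiv 1 G - pderiv 1 F * pderiv 0 G = C c)
    (hF1 : ∀ d, coeff d F ≠ 0 → d 1 ≤ a * q ∧ d 0 + d 1 ≤ a * p + a * q)
    (hF2 : coeff (Pool.Agent.TH207.Ser.ee (a * p) (a * q)) F ≠ 0)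
    (hG1 : ∀ d, coeff d G ≠ 0 → d 1 ≤ b * q ∧ d 0 + d 1 ≤ b * p + b * q)
    (hG2 : coeff (Pool.Agent.TH207.Ser.ee (b * p) (b * q)) G ≠ 0) :
    Bad (sw F) (sw G) ∧ Upp 1 0 (a * q) (a * p) (sw F) ∧ Upp 1 0 (b * q) (b * p) (sw G) ∧
      Sim a b (sw F) (sw G) ∧ Sim b a (sw G) (sw F) := by
  have hJ' : J F G = C c := hJ
  have hJs : J (sw F) (sw G) = C (-c) := by
    rw [J_sw, hJ', C_neg]
    congr 1
    exact (sw : MvPolynomial (Fin 2) k ≃ₐ[k] _).commutes c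
  have hupp : ∀ (P : MvPolynomial (Fin 2) k) (s t : ℕ),
      (∀ d, coeff d P ≠ 0 → d 1 ≤ t ∧ d 0 + d 1 ≤ s + t) →
      coeff (Pool.Agent.TH207.Ser.ee s t) P ≠ 0 → Upp 1 0 t s (sw P) := by
    intro P s t h1 h2
    refine ⟨?_, fun m hm => ?_⟩
    · rw [coeff_sw]; exact h2
    · rw [eq_e m, coeff_sw] at hm
      obtain ⟨h3, h4⟩ := h1 _ hm
      rw [e_zero, e_one] at h4
      rw [e_one] at h3
      rcases Nat.lt_or_ge (m 0) t with h5 | h5
      · left
        zify at h5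
        linarith
      · right
        have h6 : m 0 = t := le_antisymm h3 h5
        refine ⟨by rw [h6]; ring, by omega⟩
  have hUF := hupp F _ _ hF1 hF2
  have hUG := hupp G _ _ hG1 hG2
  have haq : 0 < a * q := Nat.mul_pos (by omega) hq
  have hap : 0 < a * p := Nat.mul_pos (by omega) hp
  have hbad : Bad (sw F) (sw G) :=
    ⟨⟨-c, neg_ne_zero.2 hc, hJs⟩, fun hg => no_corner (neg_ne_zero.2 hc) hJs hg haq hap hUF⟩
  have htop : ∀ (P : MvPolynomial (Fin 2) k) (s t : ℕ), Upp 1 0 t s P → Top 1 0 (t : ℤ) P := by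
    intro P s t h
    refine ⟨fun m hm => ?_, e t s, h.1, by rw [e_zero]; ring⟩
    rcases h.2 m hm with h1 | h1
    · linarith
    · linarith [h1.1]
  have hT1 : Top 1 0 ((a : ℤ) * q) (sw F) := by
    have := htop _ _ _ hUF
    push_cast at this
    exact this
  have hT2 : Top 1 0 ((b : ℤ) * q) (sw G) := by
    have := htop _ _ _ hUG
    push_cast at this
    exact this
  obtain ⟨s1, s2⟩ := Asm.sim k (sw F) (sw G) hbad a b (by omega) (by omega) hcop 1 0 q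
    (Or.inl one_pos) hT1 hT2
  exact ⟨hbad, hUF, hUG, s1, s2⟩

/-- the corner `(a p, a q)` with `p`, `q` coprime -/
theorem tz_coprime {a b p q : ℕ} (ha : 2 ≤ a) (hb : 2 ≤ b) (hcop : Nat.Coprime a b)
    (hp : 0 < p) (hq : 0 < q) {F G : MvPolynomial (Fin 2) k} {c : k} (hc : c ≠ 0)
    (hJ : pderiv 0 F * pderiv 1 G - pderiv 1 F * pderiv 0 G = C c)
    (hF1 : ∀ d, coeff d F ≠ 0 → d 1 ≤ a * q ∧ d 0 + d 1 ≤ a * p + a * q)
    (hF2 : coeff (Pool.Agent.TH207.Ser.ee (a * p) (a * q)) F ≠ 0)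
    (hG1 : ∀ d, coeff d G ≠ 0 → d 1 ≤ b * q ∧ d 0 + d 1 ≤ b * p + b * q)
    (hG2 : coeff (Pool.Agent.TH207.Ser.ee (b * p) (b * q)) G ≠ 0) : ¬ Nat.Coprime p q := by
  intro hpq
  obtain ⟨hbad, hUF, hUG, -, -⟩ := data ha hb hcop hp hq hc hJ hF1 hF2 hG1 hG2
  refine copl k _ _ _ _ _ _ ?_ hUF hUG hbad
  rw [Nat.gcd_mul_left, Nat.gcd_mul_left, Nat.gcd_mul_right, hcop, one_mul, Nat.gcd_comm]
  exact hpq

/-- the corner `(a p, a q)` -/
theorem tz_bound {a b p q : ℕ} (ha : 2 ≤ a) (hb : 2 ≤ b) (hcop : Nat.Coprime a b)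
    (hp : 0 < p) (hpq : p < q) {F G : MvPolynomial (Fin 2) k} {c : k} (hc : c ≠ 0)
    (hJ : pderiv 0 F * pderiv 1 G - pderiv 1 F * pderiv 0 G = C c)
    (hF1 : ∀ d, coeff d F ≠ 0 → d 1 ≤ a * q ∧ d 0 + d 1 ≤ a * p + a * q)
    (hF2 : coeff (Pool.Agent.TH207.Ser.ee (a * p) (a * q)) F ≠ 0)
    (hG1 : ∀ d, coeff d G ≠ 0 → d 1 ≤ b * q ∧ d 0 + d 1 ≤ b * p + b * q)
    (hG2 : coeff (Pool.Agent.TH207.Ser.ee (b * p) (b * q)) G ≠ 0) :
    3 ≤ p ∧ (p ∣ q ∨ q ≤ p * (1 + 2 ^ (p - 3))) := by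
  obtain ⟨hbad, hUF, -, s1, s2⟩ := data ha hb hcop hp (by omega) hc hJ hF1 hF2 hG1 hG2
  exact upp_bound' k _ _ a b q p ha hb hcop hp hpq hbad s1 s2 hUF

end

end Pool.Agent.Y83.NP
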